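import Pool.Agent.KGT.Basic
import Pool.Agent.KGT.Stmts

/-! Squad KGT, row LAO: the law of one function. -/

namespace Pool.Agent.KGT.H8

open MeasureTheory Complex Set Pool.Agent.KG Pool.Agent.KGT
open scoped ContDiff Topology Real

/-- `F^l v` -/
noncomputable def G (h δ : ℝ) (v : ℝ → ℂ) (l : ℕ) (s : ℝ) : ℂ :=
  pd h ((Polynomial.X - 1) ^ l) v s / (δ : ℂ) ^ l

theorem G_smc (h δ : ℝ) {v : ℝ → ℂ} (hv : SmC v) (l : ℕ) : SmC (G h δ v l) :=
  smc_div (pd_smc h _ hv) _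

theorem G_zero (h δ : ℝ) (v : ℝ → ℂ) : G h δ v 0 = v := by
  funext s
  unfold G
  rw [pow_zero, pow_zero, pd_one, div_one]

theorem G_succ (h δ : ℝ) {v : ℝ → ℂ} (hv : SmC v) (l : ℕ) :
    G h δ v (l + 1) = fun s => (δ : ℂ)⁻¹ * pd h (Polynomial.X - 1) (G h δ v l) s := by
  funext s
  have h1 : G h δ v l = fun s => pd h ((Polynomial.X - 1) ^ l) v s / (δ : ℂ) ^ l := rfl
  rw [h1, pd_fdiv h _ (pd_cd h _ hv.1)]
  unfold G
  have h2 : ((Polynomial.X : Polynomial ℝ) - 1) ^ (l + 1) =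
      (Polynomial.X - 1) * (Polynomial.X - 1) ^ l := by ring
  rw [h2, pd_mul h _ _ hv.1, pow_succ]
  rw [div_eq_mul_inv, div_eq_mul_inv, mul_inv]
  ring

theorem cx_pow_smc {z : ℝ → ℝ} (hz : Sm z) (i : ℕ) : SmC (fun s => (z s : ℂ) ^ i) :=
  smc_pow (smc_cx hz) i

/-- the derivative of `z^i` -/
noncomputable def zd (z : ℝ → ℝ) (i : ℕ) (s : ℝ) : ℂ :=
  (i : ℂ) * (z s : ℂ) ^ (i - 1) * ((deriv z s : ℝ) : ℂ)

theorem zd_smc {z : ℝ → ℝ} (hz : Sm z) (i : ℕ) : SmC (zd z i) :=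
  smc_mul (smc_cmul (cx_pow_smc hz (i - 1)) _) (smc_cx hz.wder)

theorem zpow_der {z : ℝ → ℝ} (hz : Sm z) (i : ℕ) (s : ℝ) :
    HasDerivAt (fun s => (z s : ℂ) ^ i) (zd z i s) s := by
  have h1 : HasDerivAt (fun s => (z s : ℂ)) ((deriv z s : ℝ) : ℂ) s := (hz.whd s).ofReal_comp
  have h2 : HasDerivAt (fun x : ℂ => x ^ i) ((i : ℂ) * (z s : ℂ) ^ (i - 1)) (z s : ℂ) :=
    hasDerivAt_pow i _
  exact h2.comp s h1

theorem step (h δ : ℝ) {z : ℝ → ℝ} (hz : Sm z) {v : ℝ → ℂ} (hv : SmC v) (i l : ℕ) :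
    ip (fun s => (z s : ℂ) ^ i * v s) (G h δ v (l + 1)) =
      ip (fun s => (z s : ℂ) ^ (i + 1) * v s) (G h δ v l) +
      ip (fun s => (z s : ℂ) ^ i * ff h δ z v s) (G h δ v l) -
      (I * ((h / δ : ℝ) : ℂ)) * ip (fun s => zd z i s * v s) (G h δ v l) := by
  have hu : SmC (fun s => (z s : ℂ) ^ i * v s) := smc_mul (cx_pow_smc hz i) hv
  have hu1 : SmC (fun s => (z s : ℂ) ^ (i + 1) * v s) := smc_mul (cx_pow_smc hz (i + 1)) hv
  have he : SmC (fun s => (z s : ℂ) ^ i * ff h δ z v s) :=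
    smc_mul (cx_pow_smc hz i) (ff_smc h δ hz hv)
  have hd : SmC (fun s => zd z i s * v s) := smc_mul (zd_smc hz i) hv
  have hG := G_smc h δ hv l
  have e1 : (starRingEnd ℂ) ((δ : ℂ)⁻¹) = (δ : ℂ)⁻¹ := by
    rw [← Complex.ofReal_inv, Complex.conj_ofReal]
  rw [G_succ h δ hv l, ip_cmul_right, e1, ← pd_symm h _ hu hG, ← ip_cmul_left, ← ip_cmul_left,
    ← ip_add_left hu1 he hG, ← ip_sub_left (smc_add hu1 he) (smc_cmul hd _) hG]
  congr 1
  funext s
  have h1 : deriv (fun s => (z s : ℂ) ^ i * v s) s = zd z i s * v s + (z s : ℂ) ^ i * deriv v s :=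
    ((zpow_der hz i s).mul (cd_hd hv.1 s)).deriv
  rw [pd_X_sub_one, h1]
  unfold ff
  rw [pd_X_sub_one, pow_succ, Complex.ofReal_div, div_eq_mul_inv, div_eq_mul_inv]
  ring

theorem lao : LaoStmt := by
  intro q n p hn C
  obtain ⟨B, hB⟩ : ∃ B : ℝ, B = 1 + |C 0| := ⟨_, rfl⟩
  obtain ⟨B1, hB1⟩ : ∃ B1 : ℝ, B1 = |C 1| := ⟨_, rfl⟩
  obtain ⟨K, hK⟩ : ∃ K : ℝ, K = ∑ l ∈ Finset.range (q + 1), (1 + |C l|) := ⟨_, rfl⟩
  have hB0 : 1 ≤ B := by rw [hB]; have := abs_nonneg (C 0); linarith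
  have hBpos : 0 < B := by linarith
  have hB10 : 0 ≤ B1 := by rw [hB1]; exact abs_nonneg _
  have hK0 : 0 ≤ K := by rw [hK]; exact Finset.sum_nonneg fun l _ => by positivity
  have hKl : ∀ l, l ≤ q → C l ≤ K ^ 2 := by
    intro l hl
    have h1 : 1 + |C l| ≤ K := by
      rw [hK]
      exact Finset.single_le_sum (f := fun l => 1 + |C l|) (fun l _ => by positivity)
        (Finset.mem_range.2 (Nat.lt_succ_of_le hl))
    have h2 := abs_nonneg (C l)
    have h3 := le_abs_self (C l)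
    nlinarith
  refine ⟨q * (B ^ q * K * K + q * B ^ q * B1 * K * K + B ^ q * K), ?_⟩
  intro h δ hh hhδ hδ1 z hz hyp
  have hδ : 0 < δ := lt_of_lt_of_le hh hhδ
  have hsm := hz.sm
  have hz0 : ∀ s, |z s| ≤ B := by
    intro s
    have := hz.lo 0 (by omega) s
    rw [iteratedDeriv_zero] at this
    rw [hB]
    have h2 := le_abs_self (C 0)
    linarith
  have hz1 : ∀ s, |deriv z s| ≤ B1 := by
    intro s
    have := hz.lo 1 (by omega) s
    rw [iteratedDeriv_one] at this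
    rw [hB1]
    exact this.trans (le_abs_self _)
  obtain ⟨v, hv⟩ : ∃ v, v = vf h n p z := ⟨_, rfl⟩
  have hvs : SmC v := by rw [hv]; exact vf_smc h n p hsm
  -- the bound of `F^l v`
  have hG : ∀ l, l ≤ q → nq (G h δ v l) ≤ K ^ 2 := by
    intro l hl
    have e1 : nq (G h δ v l) = nq (pd h ((Polynomial.X - 1) ^ l * p) (cx z)) /
        h ^ (2 * n) / δ ^ (2 * l) := by
      unfold G
      rw [nq_div, hv]
      have e2 := nq_pd_vf hh n p ((Polynomial.X - 1) ^ l) hsm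
      rw [e2, norm_pow, Complex.norm_real, Real.norm_eq_abs, abs_of_pos hδ, ← pow_mul,
        mul_comm l 2]
    rw [e1, div_div, div_le_iff₀ (by positivity)]
    refine (hyp l hl).trans ?_
    have := hKl l hl
    have e4 : C l * δ ^ (2 * l) * h ^ (2 * n) = C l * (h ^ (2 * n) * δ ^ (2 * l)) := by ring
    rw [e4]
    exact mul_le_mul_of_nonneg_right this (by positivity)
  have hzi : ∀ i, i ≤ q → ∀ s, ‖(z s : ℂ) ^ i‖ ≤ B ^ q := by
    intro i hi s
    rw [norm_pow, Complex.norm_real, Real.norm_eq_abs]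
    exact (pow_le_pow_left₀ (abs_nonneg _) (hz0 s) i).trans (pow_le_pow_right₀ hB0 hi)
  have hzdi : ∀ i, i ≤ q → ∀ s, ‖zd z i s‖ ≤ q * B ^ q * B1 := by
    intro i hi s
    unfold zd
    rw [norm_mul, norm_mul, Complex.norm_natCast, Complex.norm_real, Real.norm_eq_abs]
    have h1 := hzi (i - 1) (by omega) s
    have h2 : (i : ℝ) ≤ q := by exact_mod_cast hi
    have h3 := hz1 s
    gcongr
  obtain ⟨ε, hε⟩ : ∃ ε : ℝ, ε = √(ee h δ n p z) := ⟨_, rfl⟩
  have hε0 : 0 ≤ ε := by rw [hε]; exact Real.sqrt_nonneg _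
  have hεsq : nq (ff h δ z v) = ε ^ 2 := by
    rw [hε, Real.sq_sqrt]
    · rw [hv]; rfl
    · exact nq_nonneg _
  have hffs : SmC (ff h δ z v) := ff_smc h δ hsm hvs
  have hBq : 0 ≤ B ^ q := by positivity
  -- the two error terms
  have b1 : ∀ i l, i ≤ q → l ≤ q →
      ‖ip (fun s => (z s : ℂ) ^ i * ff h δ z v s) (G h δ v l)‖ ≤ B ^ q * ε * K := by
    intro i l hi hl
    refine norm_ip_le_of (smc_cont (smc_mul (cx_pow_smc hsm i) hffs)) (smc_cont (G_smc h δ hvs l))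
      (by positivity) hK0 ?_ (hG l hl)
    refine (nq_mul_le (smc_cont hffs) (smc_cont (cx_pow_smc hsm i)) (hzi i hi)).trans ?_
    rw [hεsq, mul_pow]
  have hv0 : nq v ≤ K ^ 2 := by
    have := hG 0 (Nat.zero_le _)
    rw [G_zero] at this
    exact this
  have b2 : ∀ i l, i ≤ q → l ≤ q →
      ‖ip (fun s => zd z i s * v s) (G h δ v l)‖ ≤ q * B ^ q * B1 * K * K := by
    intro i l hi hl
    refine norm_ip_le_of (smc_cont (smc_mul (zd_smc hsm i) hvs)) (smc_cont (G_smc h δ hvs l))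
      (by positivity) hK0 ?_ (hG l hl)
    refine (nq_mul_le (smc_cont hvs) (smc_cont (zd_smc hsm i)) (hzdi i hi)).trans ?_
    have e5 : ((q : ℝ) * B ^ q * B1 * K) ^ 2 = ((q : ℝ) * B ^ q * B1) ^ 2 * K ^ 2 := by ring
    rw [e5]
    exact mul_le_mul_of_nonneg_left hv0 (sq_nonneg _)
  obtain ⟨D, hD⟩ : ∃ D : ℝ, D = B ^ q * ε * K + h / δ * (q * B ^ q * B1 * K * K) := ⟨_, rfl⟩
  have hhd : 0 ≤ h / δ := by positivity
  have hD0 : 0 ≤ D := by rw [hD]; positivity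
  have hstep : ∀ i l, i ≤ q → l ≤ q →
      ‖ip (fun s => (z s : ℂ) ^ (i + 1) * v s) (G h δ v l) -
        ip (fun s => (z s : ℂ) ^ i * v s) (G h δ v (l + 1))‖ ≤ D := by
    intro i l hi hl
    rw [step h δ hsm hvs i l]
    have e1 : ip (fun s => (z s : ℂ) ^ (i + 1) * v s) (G h δ v l) -
        (ip (fun s => (z s : ℂ) ^ (i + 1) * v s) (G h δ v l) +
          ip (fun s => (z s : ℂ) ^ i * ff h δ z v s) (G h δ v l) -
          (I * ((h / δ : ℝ) : ℂ)) * ip (fun s => zd z i s * v s) (G h δ v l)) =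
        (I * ((h / δ : ℝ) : ℂ)) * ip (fun s => zd z i s * v s) (G h δ v l) -
          ip (fun s => (z s : ℂ) ^ i * ff h δ z v s) (G h δ v l) := by ring
    rw [e1]
    refine (norm_sub_le _ _).trans ?_
    rw [norm_mul, norm_mul, Complex.norm_I, one_mul, Complex.norm_real, Real.norm_eq_abs,
      abs_of_nonneg hhd, hD, add_comm]
    exact add_le_add (b1 i l hi hl) (mul_le_mul_of_nonneg_left (b2 i l hi hl) hhd)
  have hsum : ∀ i l, i + l ≤ q →
      ‖ip (fun s => (z s : ℂ) ^ i * v s) (G h δ v l) -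
        ip (fun s => (z s : ℂ) ^ 0 * v s) (G h δ v (i + l))‖ ≤ i * D := by
    intro i
    induction i with
    | zero =>
      intro l _
      rw [Nat.zero_add, sub_self, norm_zero, Nat.cast_zero, zero_mul]
    | succ i ih =>
      intro l hl
      have h1 := hstep i l (by omega) (by omega)
      have h2 := ih (l + 1) (by omega)
      have e1 : i + 1 + l = i + (l + 1) := by ring
      rw [e1]
      have e2 : ip (fun s => (z s : ℂ) ^ (i + 1) * v s) (G h δ v l) -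
          ip (fun s => (z s : ℂ) ^ 0 * v s) (G h δ v (i + (l + 1))) =
          (ip (fun s => (z s : ℂ) ^ (i + 1) * v s) (G h δ v l) -
            ip (fun s => (z s : ℂ) ^ i * v s) (G h δ v (l + 1))) +
          (ip (fun s => (z s : ℂ) ^ i * v s) (G h δ v (l + 1)) -
            ip (fun s => (z s : ℂ) ^ 0 * v s) (G h δ v (i + (l + 1)))) := by ring
      rw [e2]
      refine (norm_add_le _ _).trans ?_
      push_cast
      linarith
  intro j hj
  have h1 := hsum j 0 (by omega)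
  rw [add_zero, G_zero] at h1
  -- identification of the two real parts
  have c1 : (ip (fun s => (z s : ℂ) ^ j * v s) v).re = ∫ s in (0 : ℝ)..(2 * π), z s ^ j * ‖v s‖ ^ 2 := by
    unfold ip
    have e1 : (∫ s in (0 : ℝ)..(2 * π), (z s : ℂ) ^ j * v s * (starRingEnd ℂ) (v s)) =
        ∫ s in (0 : ℝ)..(2 * π), ((z s ^ j * ‖v s‖ ^ 2 : ℝ) : ℂ) := by
      refine intervalIntegral.integral_congr fun s _ => ?_
      show (z s : ℂ) ^ j * v s * (starRingEnd ℂ) (v s) = ((z s ^ j * ‖v s‖ ^ 2 : ℝ) : ℂ)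
      rw [mul_assoc, Complex.mul_conj, Complex.normSq_eq_norm_sq]
      push_cast
      ring
    rw [e1, intervalIntegral.integral_ofReal, Complex.ofReal_re]
  have c2 : (ip (fun s => (z s : ℂ) ^ 0 * v s) (G h δ v j)).re =
      (ip (pd h ((Polynomial.X - 1) ^ j * p) (cx z)) (pd h p (cx z))).re / (δ ^ j * h ^ (2 * n)) := by
    have e0 : (fun s => (z s : ℂ) ^ 0 * v s) = fun s => ((h : ℂ) ^ n)⁻¹ * pd h p (cx z) s := by
      funext s
      rw [pow_zero, one_mul, hv]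
      show pd h p (cx z) s / (h : ℂ) ^ n = _
      rw [div_eq_mul_inv, mul_comm]
    have e1 : G h δ v j = fun s => (((h : ℂ) ^ n)⁻¹ * ((δ : ℂ) ^ j)⁻¹) *
        pd h ((Polynomial.X - 1) ^ j * p) (cx z) s := by
      funext s
      unfold G
      rw [hv, pd_vf h n p _ hsm, div_eq_mul_inv, div_eq_mul_inv]
      ring
    have e2 : ∀ x : ℝ, ∀ m : ℕ, ((x : ℂ) ^ m)⁻¹ = (((x ^ m)⁻¹ : ℝ) : ℂ) := by
      intro x m
      push_cast
      rfl
    rw [ip_re_comm, e0, e1, ip_cmul_left, ip_cmul_right, e2, e2, Complex.conj_ofReal,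
      ← Complex.ofReal_mul, Complex.re_ofReal_mul, Complex.re_ofReal_mul]
    have hh' : h ≠ 0 := hh.ne'
    have hδ' : δ ≠ 0 := hδ.ne'
    rw [two_mul n, pow_add]
    field_simp
  have h2 := Complex.abs_re_le_norm (ip (fun s => (z s : ℂ) ^ j * v s) v -
        ip (fun s => (z s : ℂ) ^ 0 * v s) (G h δ v j))
  rw [Complex.sub_re, c1, c2] at h2
  have h3 := h2.trans h1
  rw [hv] at h3
  refine h3.trans ?_
  rw [← hε]
  have hjq : (j : ℝ) ≤ q := by exact_mod_cast hj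
  have h4 : (j : ℝ) * D ≤ q * D := mul_le_mul_of_nonneg_right hjq hD0
  refine h4.trans ?_
  have h5 : D ≤ (B ^ q * K * K + q * B ^ q * B1 * K * K + B ^ q * K) * (ε + h / δ) := by
    rw [hD]
    have t1 : 0 ≤ B ^ q * K * K * (ε + h / δ) := by positivity
    have t2 : 0 ≤ q * B ^ q * B1 * K * K * ε := by positivity
    have t3 : 0 ≤ B ^ q * K * (h / δ) := by positivity
    nlinarith
  have h6 := mul_le_mul_of_nonneg_left h5 (Nat.cast_nonneg (α := ℝ) q)
  refine h6.trans (le_of_eq ?_)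
  ring

end Pool.Agent.KGT.H8
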